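import Mathlib

/-!
# Algebraic independence of polynomials divisible by private variables
-/

set_option autoImplicit false

namespace Pool.Agent.Helper40.CliqueF

open MvPolynomial Function

theorem transcendental_of_spec {K A ι : Type} [Field K] [CommRing A] [IsDomain A] [Algebra K A]
    {x : ι → A} (σ : A →ₐ[K] A) (hx : AlgebraicIndependent K (σ ∘ x)) {a : A} (ha : a ≠ 0)
    (hσ : σ a = 0) : Transcendental (Algebra.adjoin K (Set.range x)) a := by
  have hinj : ∀ b : Algebra.adjoin K (Set.range x), σ (b : A) = 0 → b = 0 := by
    rintro ⟨b, hb⟩ h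
    rw [Algebra.adjoin_range_eq_range_aeval] at hb
    obtain ⟨P, rfl⟩ := hb
    have h1 : aeval (σ ∘ x) P = 0 := by
      rw [← h]
      show _ = σ (aeval x P)
      rw [← AlgHom.comp_apply]
      congr 1
      ext i
      simp
    have h2 : P = 0 := hx.eq_zero_of_aeval_eq_zero P h1
    subst h2
    apply Subtype.ext
    simp
  have key : ∀ (n : ℕ) (p : Polynomial (Algebra.adjoin K (Set.range x))), p.natDegree ≤ n →
      Polynomial.aeval a p = 0 → p = 0 := by
    intro n
    induction n with
    | zero =>
      intro p hp h0
      rw [Polynomial.eq_C_of_natDegree_le_zero hp] at h0 ⊢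
      rw [Polynomial.aeval_C] at h0
      have h1 : ((p.coeff 0 : Algebra.adjoin K (Set.range x)) : A) = 0 := h0
      rw [Subtype.ext (a1 := p.coeff 0) (a2 := 0) h1, map_zero]
    | succ n ih =>
      intro p hp h0
      have h1 := Polynomial.divX_mul_X_add p
      have h2 : Polynomial.aeval a p.divX * a + (p.coeff 0 : A) = 0 := by
        have := congrArg (Polynomial.aeval a) h1
        rw [h0, map_add, map_mul, Polynomial.aeval_X, Polynomial.aeval_C] at this
        exact this
      have h3 : p.coeff 0 = 0 := by
        apply hinj
        have := congrArg σ h2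
        rwa [map_add, map_mul, hσ, mul_zero, zero_add, map_zero] at this
      have h4 : Polynomial.aeval a p.divX = 0 := by
        rw [h3] at h2
        simp only [ZeroMemClass.coe_zero, add_zero] at h2
        exact (mul_eq_zero.1 h2).resolve_right ha
      have h5 : p.divX = 0 := by
        apply ih _ _ h4
        rw [Polynomial.natDegree_divX_eq_natDegree_tsub_one]
        omega
      rw [← h1, h5, h3, map_zero, zero_mul, add_zero]
  rintro ⟨p, hp, hpa⟩
  exact hp (key _ p le_rfl hpa)

section

variable {K O ι : Type} [Field K]

/-- put the variables `Y j`, `j ∉ s`, equal to zero -/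
noncomputable def zer (K : Type) [Field K] (Y : ι → O) (s : Set ι) :
    MvPolynomial O K →ₐ[K] MvPolynomial O K :=
  open Classical in aeval fun o => if ∃ j, j ∉ s ∧ Y j = o then 0 else X o

theorem zer_X_of (Y : ι → O) (s : Set ι) {o : O} (h : ∃ j, j ∉ s ∧ Y j = o) :
    zer K Y s (X o) = 0 := by
  unfold zer
  rw [aeval_X, if_pos h]

theorem zer_X_of_not (Y : ι → O) (s : Set ι) {o : O} (h : ¬ ∃ j, j ∉ s ∧ Y j = o) :
    zer K Y s (X o) = X o := by
  unfold zer
  rw [aeval_X, if_neg h]

theorem zer_zer (Y : ι → O) {s t : Set ι} (h : s ⊆ t) (p : MvPolynomial O K) :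
    zer K Y s (zer K Y t p) = zer K Y s p := by
  rw [← AlgHom.comp_apply]
  congr 1
  ext o : 1
  rw [AlgHom.comp_apply]
  by_cases h1 : ∃ j, j ∉ t ∧ Y j = o
  · obtain ⟨j, hj, hjo⟩ := h1
    rw [zer_X_of Y t ⟨j, hj, hjo⟩, map_zero, zer_X_of Y s ⟨j, fun h' => hj (h h'), hjo⟩]
  · rw [zer_X_of_not Y t h1]

theorem zer_univ (Y : ι → O) (p : MvPolynomial O K) : zer K Y Set.univ p = p := by
  have : zer K Y Set.univ = AlgHom.id K _ := by
    ext o : 1
    rw [zer_X_of_not]
    · rfl
    · rintro ⟨j, hj, _⟩
      exact hj (Set.mem_univ _)
  rw [this]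
  rfl

/-- Polynomials divisible by private variables, which do not vanish when the other private
variables are zero, are algebraically independent. -/
theorem algInd [Finite ι] (Y : ι → O) (f : ι → MvPolynomial O K)
    (h1 : ∀ i, X (Y i) ∣ f i) (h2 : ∀ i, zer K Y {i} (f i) ≠ 0) : AlgebraicIndependent K f := by
  classical
  have key : ∀ s : Finset ι, AlgebraicIndepOn K (fun i => zer K Y (s : Set ι) (f i)) (s : Set ι) := by
    intro s
    induction s using Finset.induction_on with
    | empty =>
      have : IsEmpty ((∅ : Finset ι) : Set ι) := by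
        simp only [Finset.coe_empty]
        exact Set.isEmpty_coe_sort.2 rfl
      unfold AlgebraicIndepOn
      rw [algebraicIndependent_empty_type_iff]
      exact MvPolynomial.C_injective O K
    | insert a s ha ih =>
      have hsub : (s : Set ι) ⊆ ((insert a s : Finset ι) : Set ι) := by
        intro i hi
        simp only [Finset.coe_insert]
        exact Set.mem_insert_of_mem _ hi
      have hσ : ∀ i, zer K Y (s : Set ι) (zer K Y ((insert a s : Finset ι) : Set ι) (f i)) =
          zer K Y (s : Set ι) (f i) := fun i => zer_zer Y hsub _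
      have hcomp : AlgebraicIndependent K ((zer K Y (s : Set ι)) ∘
          fun i : (s : Set ι) => zer K Y ((insert a s : Finset ι) : Set ι) (f i)) := by
        have : ((zer K Y (s : Set ι)) ∘
          fun i : (s : Set ι) => zer K Y ((insert a s : Finset ι) : Set ι) (f i)) =
          fun i : (s : Set ι) => zer K Y (s : Set ι) (f i) := by
          funext i
          exact hσ i
        rw [this]
        exact ih
      have hx : AlgebraicIndepOn K
          (fun i => zer K Y ((insert a s : Finset ι) : Set ι) (f i)) (s : Set ι) :=
        AlgebraicIndependent.of_comp _ hcomp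
      have htr : Transcendental (Algebra.adjoin K (Set.range
          fun i : (s : Set ι) => zer K Y ((insert a s : Finset ι) : Set ι) (f i)))
          (zer K Y ((insert a s : Finset ι) : Set ι) (f a)) := by
        refine transcendental_of_spec (zer K Y (s : Set ι)) hcomp ?_ ?_
        · intro h0
          apply h2 a
          have h3 : ({a} : Set ι) ⊆ ((insert a s : Finset ι) : Set ι) := by
            intro i hi
            rw [Set.mem_singleton_iff.1 hi]
            simp
          rw [← zer_zer Y h3, h0, map_zero]
        · rw [hσ]
          obtain ⟨g, hg⟩ := h1 a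
          rw [hg, map_mul, zer_X_of Y (s : Set ι) ⟨a, by simpa using ha, rfl⟩, zero_mul]
      have := AlgebraicIndepOn.insert (i := a) hx (by
        rw [Set.image_eq_range]
        exact htr)
      rw [Finset.coe_insert] at this ⊢
      exact this
  cases nonempty_fintype ι
  have h3 := key Finset.univ
  rw [Finset.coe_univ] at h3
  have h4 : (fun i => zer K Y Set.univ (f i)) = f := by
    funext i
    exact zer_univ Y _
  rw [h4] at h3
  exact (algebraicIndependent_equiv (Equiv.Set.univ ι)).1 h3

end

end Pool.Agent.Helper40.CliqueF
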