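import Pool.Agent.Helper40.CliqueF.Kal

/-!
# The coefficients of a polynomial in a field with few generators
-/

set_option autoImplicit false
set_option linter.unusedSectionVars false

namespace Pool.Agent.Helper40.CliqueF

open MvPolynomial Pool.Agent.Helper71.Fml

section

variable {K V : Type} [Field K] [DecidableEq V] {D : Finset V}

/-- A polynomial in the field generated by `T` and the variables has coefficients in the field
generated by `T`. -/
theorem coeff_mem (T : Set (E K D)) (P : S K D)
    (h : algebraMap (S K D) (L K D) P ∈ Fld K D T) (a : Dc D →₀ ℕ) :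
    coeff a P ∈ IntermediateField.adjoin K T := by
  set k := IntermediateField.adjoin K T with hk
  let ι : MvPolynomial (Dc D) k →+* S K D := map (algebraMap k (E K D))
  have hι : Function.Injective ι := map_injective _ (algebraMap k (E K D)).injective
  have hal : Function.Injective (algebraMap (S K D) (L K D)) := IsFractionRing.injective _ _
  -- elements of the field are fractions
  have key : ∀ f ∈ Fld K D T, ∃ A B : MvPolynomial (Dc D) k, B ≠ 0 ∧
      f * algebraMap (S K D) (L K D) (ι B) = algebraMap (S K D) (L K D) (ι A) := by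
    intro f hf
    induction hf using Subfield.closure_induction with
    | mem x hx =>
      rcases hx with ⟨t, ht, rfl⟩ | ⟨d, rfl⟩
      · refine ⟨C ⟨t, ht⟩, 1, one_ne_zero, ?_⟩
        rw [map_one, map_one, mul_one]
        show algebraMap (S K D) (L K D) (C t) = algebraMap (S K D) (L K D) (map _ (C _))
        rw [map_C]
        rfl
      · refine ⟨X d, 1, one_ne_zero, ?_⟩
        rw [map_one, map_one, mul_one]
        show _ = algebraMap (S K D) (L K D) (map _ (X d))
        rw [map_X]
    | one => exact ⟨1, 1, one_ne_zero, by simp⟩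
    | add x y _ _ hx hy =>
      obtain ⟨A, B, hB, h1⟩ := hx
      obtain ⟨A', B', hB', h2⟩ := hy
      refine ⟨A * B' + A' * B, B * B', mul_ne_zero hB hB', ?_⟩
      simp only [map_mul, map_add, ← h1, ← h2]
      ring
    | neg x _ hx =>
      obtain ⟨A, B, hB, h1⟩ := hx
      exact ⟨-A, B, hB, by simp only [map_neg, ← h1]; ring⟩
    | inv x _ hx =>
      obtain ⟨A, B, hB, h1⟩ := hx
      by_cases hx0 : x = 0
      · subst hx0
        exact ⟨0, 1, one_ne_zero, by simp⟩
      · have hB0 : algebraMap (S K D) (L K D) (ι B) ≠ 0 := by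
          intro h0
          apply hB
          apply hι
          apply hal
          rw [h0, map_zero, map_zero]
        have hA : A ≠ 0 := by
          rintro rfl
          rw [map_zero, map_zero] at h1
          exact (mul_ne_zero hx0 hB0) h1
        refine ⟨B, A, hA, ?_⟩
        rw [← h1, ← mul_assoc, inv_mul_cancel₀ hx0, one_mul]
    | mul x y _ _ hx hy =>
      obtain ⟨A, B, hB, h1⟩ := hx
      obtain ⟨A', B', hB', h2⟩ := hy
      refine ⟨A * A', B * B', mul_ne_zero hB hB', ?_⟩
      simp only [map_mul, ← h1, ← h2]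
      ring
  obtain ⟨A, B, hB, h1⟩ := key _ h
  have h2 : P * ι B = ι A := by
    apply hal
    rw [map_mul, h1]
  -- a projection to the small field
  obtain ⟨π, hπ⟩ : ∃ π : E K D →ₗ[k] k, π ∘ₗ (Algebra.linearMap k (E K D)) = LinearMap.id :=
    LinearMap.exists_leftInverse_of_injective _
      (LinearMap.ker_eq_bot.2 (algebraMap k (E K D)).injective)
  have hπ1 : ∀ x : k, π (algebraMap k (E K D) x) = x := fun x => LinearMap.congr_fun hπ x
  let P' : MvPolynomial (Dc D) k := ∑ b ∈ P.support, monomial b (π (coeff b P))
  have hP' : ∀ b, coeff b P' = π (coeff b P) := by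
    intro b
    classical
    show coeff b (∑ b ∈ P.support, monomial b (π (coeff b P))) = _
    rw [coeff_sum]
    simp only [coeff_monomial]
    rw [Finset.sum_ite_eq' P.support b]
    split_ifs with hb
    · rfl
    · rw [notMem_support_iff.1 hb, map_zero]
  have h3 : P' * B = A := by
    classical
    ext b
    rw [coeff_mul]
    have h4 : π (coeff b (P * ι B)) = coeff b A := by
      rw [h2]
      show π (coeff b (map _ A)) = _
      rw [coeff_map, hπ1]
    rw [coeff_mul, map_sum] at h4
    rw [← h4]
    have h5 : ∀ x : (Dc D →₀ ℕ) × (Dc D →₀ ℕ), coeff x.1 P' * coeff x.2 B =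
        π (coeff x.1 P * coeff x.2 (ι B)) := by
      intro x
      show _ = π (coeff x.1 P * coeff x.2 (map _ B))
      rw [coeff_map, hP', mul_comm (coeff x.1 P), ← Algebra.smul_def, map_smul, smul_eq_mul,
        mul_comm]
    exact congrArg _ (Finset.sum_congr rfl fun x _ => h5 x)
  have h4 : P = ι P' := by
    have h5 : P * ι B = ι P' * ι B := by
      rw [h2, ← map_mul, h3]
    exact mul_right_cancel₀ (fun h0 => hB (hι (by rw [h0, map_zero]))) h5
  rw [h4]
  show coeff a (map _ P') ∈ k
  rw [coeff_map]
  exact (coeff a P').2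

/-- Algebraically independent elements of a field with few generators. -/
theorem card_le_of_mem {F : Type} [Field F] [Algebra K F] (T : Finset F) {ι : Type} [Fintype ι]
    (g : ι → F) (hg : AlgebraicIndependent K g)
    (hm : ∀ i, g i ∈ IntermediateField.adjoin K (T : Set F)) : Fintype.card ι ≤ T.card := by
  classical
  set k := IntermediateField.adjoin K (T : Set F) with hk
  let g' : ι → k := fun i => ⟨g i, hm i⟩
  have h1 : AlgebraicIndependent K g' := by
    apply AlgebraicIndependent.of_comp k.val
    exact hg
  let s : Set k := {x | (x : F) ∈ (T : Set F)}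
  have h2 : Algebra.IsAlgebraic (Algebra.adjoin K s) k := by
    have h3 : ∀ x : F, x ∈ k → ∀ hx : x ∈ k, ∃ a b : Algebra.adjoin K s, (b : k) ≠ 0 ∧
        (b : k) * ⟨x, hx⟩ = (a : k) := by
      intro x hx
      rw [hk] at hx
      induction hx using IntermediateField.adjoin_induction with
      | mem x hx =>
        intro hx'
        exact ⟨⟨⟨x, hx'⟩, Algebra.subset_adjoin hx⟩, 1, by simp, by simp⟩
      | algebraMap x =>
        intro hx'
        refine ⟨algebraMap K _ x, 1, by simp, ?_⟩
        simp only [OneMemClass.coe_one, one_mul]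
        rfl
      | add x y hx' hy' hx hy =>
        intro hxy
        obtain ⟨a, b, hb, h1⟩ := hx hx'
        obtain ⟨a', b', hb', h2⟩ := hy hy'
        refine ⟨a * b' + a' * b, b * b', mul_ne_zero hb hb', ?_⟩
        have h5 : (⟨x + y, hxy⟩ : k) = ⟨x, hx'⟩ + ⟨y, hy'⟩ := rfl
        push_cast
        rw [h5, ← h1, ← h2]
        ring
      | inv x hx' hx =>
        intro hxi
        obtain ⟨a, b, hb, h1⟩ := hx hx'
        have h5 : (⟨x⁻¹, hxi⟩ : k) = (⟨x, hx'⟩ : k)⁻¹ := rfl
        by_cases hx0 : x = 0
        · subst hx0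
          refine ⟨0, 1, by simp, ?_⟩
          rw [h5]
          have : (⟨0, hx'⟩ : k) = 0 := rfl
          rw [this, inv_zero]
          simp
        · have hx1 : (⟨x, hx'⟩ : k) ≠ 0 := fun h => hx0 (congrArg Subtype.val h)
          refine ⟨b, a, ?_, ?_⟩
          · rw [← h1]
            exact mul_ne_zero hb hx1
          · rw [← h1, h5, mul_assoc, mul_inv_cancel₀ hx1, mul_one]
      | mul x y hx' hy' hx hy =>
        intro hxy
        obtain ⟨a, b, hb, h1⟩ := hx hx'
        obtain ⟨a', b', hb', h2⟩ := hy hy'
        refine ⟨a * a', b * b', mul_ne_zero hb hb', ?_⟩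
        have h5 : (⟨x * y, hxy⟩ : k) = ⟨x, hx'⟩ * ⟨y, hy'⟩ := rfl
        push_cast
        rw [h5, ← h1, ← h2]
        ring
    constructor
    intro x
    obtain ⟨a, b, hb, h1⟩ := h3 x x.2 x.2
    refine ⟨Polynomial.C b * Polynomial.X - Polynomial.C a, ?_, ?_⟩
    · intro h0
      have := congrArg (fun p => Polynomial.coeff p 1) h0
      simp only [Polynomial.coeff_sub, Polynomial.coeff_C_mul, Polynomial.coeff_X_one, mul_one,
        Polynomial.coeff_C_succ, sub_zero, Polynomial.coeff_zero] at this
      exact hb (by rw [this]; rfl)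
    · rw [map_sub, map_mul, Polynomial.aeval_C, Polynomial.aeval_C, Polynomial.aeval_X]
      exact sub_eq_zero.2 h1
  have h3 : Algebra.trdeg K k ≤ Cardinal.mk s :=
    Algebra.IsAlgebraic.trdeg_le_cardinalMk K s
  have h4 : Cardinal.lift.{0} (Cardinal.mk ι) ≤ Cardinal.lift.{0} (Algebra.trdeg K k) :=
    h1.lift_cardinalMk_le_trdeg
  rw [Cardinal.lift_id, Cardinal.lift_id] at h4
  have h5 : Cardinal.mk s ≤ Cardinal.mk (T : Set F) := by
    refine Cardinal.mk_le_of_injective (f := fun x : s => (⟨((x : k) : F), x.2⟩ : (T : Set F))) ?_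
    intro x y h
    apply Subtype.ext
    apply Subtype.ext
    have := congrArg Subtype.val h
    exact this
  have h6 : Cardinal.mk ι ≤ Cardinal.mk (T : Set F) := h4.trans (h3.trans h5)
  rw [Cardinal.mk_fintype, Finset.coe_sort_coe, Cardinal.mk_coe_finset] at h6
  exact_mod_cast h6

/-- **Kalorkoti's bound** in every characteristic. -/
theorem kalorkoti (φ : Formula K V) (F : MvPolynomial V K)
    (hφ : φ.eval = algebraMap (MvPolynomial V K) _ F) {ι : Type} [Fintype ι]
    (a : ι → (Dc D →₀ ℕ))
    (hind : AlgebraicIndependent K fun i => coeff (a i) (part K D F)) :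
    Fintype.card ι ≤ 8 * φ.leavesIn D + 1 := by
  obtain ⟨T, hT, hmem⟩ := exists_field (D := D) φ
  rw [hφ, hL_algebraMap] at hmem
  refine le_trans ?_ hT
  refine card_le_of_mem (K := K) T
    (fun i => algebraMap (MvPolynomial (Oc D) K) (E K D) (coeff (a i) (part K D F))) ?_ ?_
  · exact hind.map' (f := IsScalarTower.toAlgHom K (MvPolynomial (Oc D) K) (E K D))
      (IsFractionRing.injective _ _)
  · intro i
    have := coeff_mem (T : Set (E K D)) _ hmem (a i)
    have h1 : coeff (a i) (toS K D F) =
        algebraMap (MvPolynomial (Oc D) K) (E K D) (coeff (a i) (part K D F)) := by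
      show coeff (a i) (map _ (part K D F)) = _
      rw [coeff_map]
    rwa [h1] at this

end

end Pool.Agent.Helper40.CliqueF
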