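import Pool.Agent.Helper40.CliqueF.Coef
import Pool.Agent.Helper40.CliqueF.AlgInd

/-!
# Coefficients after a substitution of zeros, and after splitting the variables
-/

set_option autoImplicit false
set_option linter.unusedSectionVars false

namespace Pool.Agent.Helper40.CliqueF

open MvPolynomial

theorem coeff_aeval_ite {σ K : Type} [Field K] (A : σ → Prop) [DecidablePred A]
    (f : MvPolynomial σ K) (m : σ →₀ ℕ) :
    coeff m (aeval (fun e => if A e then (X e : MvPolynomial σ K) else 0) f) =
      open Classical in if (∀ e ∈ m.support, A e) then coeff m f else 0 := by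
  classical
  induction f using MvPolynomial.induction_on' with
  | monomial u a =>
    rw [aeval_monomial, coeff_monomial]
    by_cases h : ∀ e ∈ u.support, A e
    · have h1 : algebraMap K (MvPolynomial σ K) a *
          (u.prod fun i k => (if A i then (X i : MvPolynomial σ K) else 0) ^ k) =
          monomial u a := by
        rw [monomial_eq, algebraMap_eq]
        congr 1
        exact Finset.prod_congr rfl fun e he => by
          beta_reduce
          rw [if_pos (h e he)]
      rw [h1, coeff_monomial]
      by_cases hu : u = m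
      · subst hu
        rw [if_pos rfl, if_pos h]
      · rw [if_neg hu]
        simp
    · have h1 : (u.prod fun i k => (if A i then (X i : MvPolynomial σ K) else 0) ^ k) = 0 := by
        push Not at h
        obtain ⟨e, he, hA⟩ := h
        refine Finset.prod_eq_zero he ?_
        beta_reduce
        rw [if_neg hA, zero_pow (Finsupp.mem_support_iff.1 he)]
      rw [h1, mul_zero, coeff_zero]
      by_cases hu : u = m
      · subst hu
        rw [if_neg h]
      · rw [if_neg hu]
        simp
  | add p q hp hq =>
    rw [map_add, coeff_add, hp, hq, coeff_add]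
    split_ifs
    · rfl
    · rw [add_zero]

theorem coeff_aeval_pos {σ K : Type} [Field K] (A : σ → Prop) [DecidablePred A]
    (f : MvPolynomial σ K) (m : σ →₀ ℕ) (h : ∀ e ∈ m.support, A e) :
    coeff m (aeval (fun e => if A e then (X e : MvPolynomial σ K) else 0) f) = coeff m f := by
  rw [coeff_aeval_ite, if_pos h]

theorem coeff_aeval_ne {σ K : Type} [Field K] (A : σ → Prop) [DecidablePred A]
    (f : MvPolynomial σ K) (m : σ →₀ ℕ)
    (h : coeff m (aeval (fun e => if A e then (X e : MvPolynomial σ K) else 0) f) ≠ 0) :
    (∀ e ∈ m.support, A e) ∧ coeff m f ≠ 0 := by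
  rw [coeff_aeval_ite] at h
  by_cases h1 : ∀ e ∈ m.support, A e
  · rw [if_pos h1] at h
    exact ⟨h1, h⟩
  · rw [if_neg h1] at h
    exact absurd rfl h

theorem coeff_zer {K O ι : Type} [Field K] (Y : ι → O) (s : Set ι) (p : MvPolynomial O K)
    (m : O →₀ ℕ) (h : ∀ e ∈ m.support, ¬ ∃ j, j ∉ s ∧ Y j = e) :
    coeff m (zer K Y s p) = coeff m p := by
  classical
  have h1 : zer K Y s = aeval (fun e => if ¬ ∃ j, j ∉ s ∧ Y j = e then
      (X e : MvPolynomial O K) else 0) := by
    apply MvPolynomial.algHom_ext
    intro o
    rw [aeval_X]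
    by_cases ho : ∃ j, j ∉ s ∧ Y j = o
    · rw [zer_X_of Y s ho, if_neg (not_not.2 ho)]
    · rw [zer_X_of_not Y s ho, if_pos ho]
  rw [h1, coeff_aeval_pos _ _ _ h]

section

variable {K V : Type} [Field K] [DecidableEq V] {D : Finset V}

theorem part_monomial (m : V →₀ ℕ) (c : K) : part K D (monomial m c) =
    monomial (m.subtypeDomain (fun v => v ∈ D))
      (monomial (m.subtypeDomain (fun v => ¬ v ∈ D)) c) := by
  induction m using Finsupp.induction_linear generalizing c with
  | zero =>
    rw [Finsupp.subtypeDomain_zero, Finsupp.subtypeDomain_zero]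
    exact part_C K D c
  | add f g hf hg =>
    have h1 : monomial (f + g) c = monomial f c * monomial g (1 : K) := by
      rw [monomial_mul, mul_one]
    rw [h1, map_mul, hf, hg, monomial_mul, monomial_mul, mul_one, Finsupp.subtypeDomain_add,
      Finsupp.subtypeDomain_add]
  | single v n =>
    have h1 : monomial (Finsupp.single v n) c = C c * X v ^ n := by
      rw [← mul_one c, ← C_mul_monomial, mul_one, X_pow_eq_monomial]
    rw [h1, map_mul, map_pow, part_C]
    by_cases hv : v ∈ D
    · rw [part_X_mem K D hv]
      have h2 : (Finsupp.single v n).subtypeDomain (fun v => v ∈ D) =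
          Finsupp.single (⟨v, hv⟩ : Dc D) n := by
        ext x
        rw [Finsupp.subtypeDomain_apply, Finsupp.single_apply, Finsupp.single_apply]
        simp only [Subtype.ext_iff]
      have h3 : (Finsupp.single v n).subtypeDomain (fun v => ¬ v ∈ D) = 0 := by
        ext x
        rw [Finsupp.subtypeDomain_apply, Finsupp.single_apply, if_neg]
        · rfl
        · rintro rfl
          exact x.2 hv
      rw [h2, h3, X_pow_eq_monomial, C_mul_monomial, mul_one]
      rfl
    · rw [part_X_not_mem K D hv]
      have h2 : (Finsupp.single v n).subtypeDomain (fun v => ¬ v ∈ D) =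
          Finsupp.single (⟨v, hv⟩ : Oc D) n := by
        ext x
        rw [Finsupp.subtypeDomain_apply, Finsupp.single_apply, Finsupp.single_apply]
        simp only [Subtype.ext_iff]
      have h3 : (Finsupp.single v n).subtypeDomain (fun v => v ∈ D) = 0 := by
        ext x
        rw [Finsupp.subtypeDomain_apply, Finsupp.single_apply, if_neg]
        · rfl
        · rintro rfl
          exact hv x.2
      rw [h2, h3, ← C_pow, X_pow_eq_monomial, ← C_mul, C_mul_monomial, mul_one]
      rfl

/-- combine the exponents -/
noncomputable def comb [Finite V] (a : Dc D →₀ ℕ) (b : Oc D →₀ ℕ) : V →₀ ℕ :=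
  Finsupp.equivFunOnFinite.symm fun v => if h : v ∈ D then a ⟨v, h⟩ else b ⟨v, h⟩

theorem comb_mem [Finite V] (a : Dc D →₀ ℕ) (b : Oc D →₀ ℕ) {v : V} (h : v ∈ D) :
    comb a b v = a ⟨v, h⟩ := by
  unfold comb
  rw [Finsupp.equivFunOnFinite_symm_apply_apply, dif_pos h]

theorem comb_not_mem [Finite V] (a : Dc D →₀ ℕ) (b : Oc D →₀ ℕ) {v : V} (h : ¬ v ∈ D) :
    comb a b v = b ⟨v, h⟩ := by
  unfold comb
  rw [Finsupp.equivFunOnFinite_symm_apply_apply, dif_neg h]

theorem comb_restrict [Finite V] (m : V →₀ ℕ) :
    comb (m.subtypeDomain (fun v => v ∈ D)) (m.subtypeDomain (fun v => ¬ v ∈ D)) = m := by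
  ext v
  by_cases h : v ∈ D
  · rw [comb_mem _ _ h, Finsupp.subtypeDomain_apply]
  · rw [comb_not_mem _ _ h, Finsupp.subtypeDomain_apply]

theorem coeff_coeff_part [Finite V] (f : MvPolynomial V K) (a : Dc D →₀ ℕ) (b : Oc D →₀ ℕ) :
    coeff b (coeff a (part K D f)) = coeff (comb a b) f := by
  induction f using MvPolynomial.induction_on' with
  | monomial u c =>
    rw [part_monomial, coeff_monomial, coeff_monomial]
    by_cases h : u = comb a b
    · rw [if_pos h]
      have h1 : u.subtypeDomain (fun v => v ∈ D) = a := by
        ext x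
        rw [Finsupp.subtypeDomain_apply, h, comb_mem _ _ x.2]
      have h2 : u.subtypeDomain (fun v => ¬ v ∈ D) = b := by
        ext x
        rw [Finsupp.subtypeDomain_apply, h, comb_not_mem _ _ x.2]
      rw [if_pos h1, coeff_monomial, if_pos h2]
    · rw [if_neg h]
      split_ifs with h1
      · rw [coeff_monomial, if_neg]
        intro h2
        apply h
        rw [← h1, ← h2, comb_restrict]
      · rw [coeff_zero]
  | add p q hp hq =>
    rw [map_add, coeff_add, coeff_add, hp, hq, coeff_add]

/-- divisibility by a variable -/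
theorem X_dvd_of_support {σ : Type} (f : MvPolynomial σ K) (i : σ)
    (h : ∀ m, coeff m f ≠ 0 → m i ≠ 0) : X i ∣ f := by
  rw [f.as_sum]
  refine Finset.dvd_sum fun m hm => ?_
  have h1 := h m (mem_support_iff.1 hm)
  refine ⟨monomial (m - Finsupp.single i 1) (coeff m f), ?_⟩
  rw [X, monomial_mul, one_mul]
  congr 1
  rw [add_comm, tsub_add_cancel_of_le]
  rw [Finsupp.single_le_iff]
  omega

end

end Pool.Agent.Helper40.CliqueF
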