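import Pool.Agent.Helper40.CliqueF.Gad

/-!
# Disjoint blocks
-/

set_option autoImplicit false
set_option linter.unusedSectionVars false

namespace Pool.Agent.Helper40.CliqueF

open MvPolynomial Pool.Agent.Helper71.Fml Finset

theorem sum_leavesIn_le {K V ι : Type} [DecidableEq V] [Fintype ι] (D : ι → Finset V)
    (hD : ∀ i j v, v ∈ D i → v ∈ D j → i = j) (φ : Formula K V) :
    ∑ i, φ.leavesIn (D i) ≤ φ.size := by
  classical
  induction φ with
  | const c => simp [Formula.leavesIn, Formula.size]
  | var v =>
    simp only [Formula.leavesIn, Formula.size]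
    rw [Finset.sum_boole]
    have h1 : (univ.filter fun i => v ∈ D i).card ≤ 1 := by
      rw [Finset.card_le_one]
      intro i hi j hj
      exact hD i j v (mem_filter.1 hi).2 (mem_filter.1 hj).2
    exact_mod_cast h1
  | add a b iha ihb =>
    simp only [Formula.leavesIn, Formula.size, Finset.sum_add_distrib]
    omega
  | mul a b iha ihb =>
    simp only [Formula.leavesIn, Formula.size, Finset.sum_add_distrib]
    omega
  | div a b iha ihb =>
    simp only [Formula.leavesIn, Formula.size, Finset.sum_add_distrib]
    omega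

/-- extension of an embedding -/
theorem exists_emb {l n : ℕ} {B P U : Type} [Fintype B] [Fintype P] [Fintype U]
    (e : Option (Bit l B) ↪ Fin n)
    (hc : Fintype.card (Option (Bit l B)) + Fintype.card ((Bool × P) ⊕ U) ≤ n) :
    ∃ ψ : W l B P U ↪ Fin n, ψ none = e none ∧ ∀ x, ψ (some (Sum.inl x)) = e (some x) := by
  classical
  have h1 : Fintype.card ((Bool × P) ⊕ U) ≤ Fintype.card {x : Fin n // x ∉ Set.range e} := by
    have h2 : Fintype.card {x : Fin n // x ∉ Set.range e} =
        n - Fintype.card (Option (Bit l B)) := by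
      rw [Fintype.card_subtype_compl, Fintype.card_fin]
      congr 1
      exact Fintype.card_congr (Equiv.ofInjective e e.injective).symm
    omega
  obtain ⟨r⟩ := Function.Embedding.nonempty_of_card_le h1
  let g : W l B P U → Fin n := fun w => match w with
    | none => e none
    | some (Sum.inl x) => e (some x)
    | some (Sum.inr y) => (r y : Fin n)
  have hg : Function.Injective g := by
    intro w w' h
    rcases w with _ | x | y <;> rcases w' with _ | x' | y'
    · rfl
    · exact absurd (e.injective h) (by simp)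
    · exact absurd ⟨none, h⟩ (r y').2
    · exact absurd (e.injective h) (by simp)
    · have h2 := e.injective h
      simp only [Option.some.injEq] at h2
      rw [h2]
    · exact absurd ⟨some x, h⟩ (r y').2
    · exact absurd ⟨none, h.symm⟩ (r y).2
    · exact absurd ⟨some x', h.symm⟩ (r y).2
    · have h2 := r.injective (Subtype.ext h)
      rw [h2]
  exact ⟨⟨g, hg⟩, rfl, fun _ => rfl⟩

theorem count {K : Type} [Field K] {n k l b p : ℕ} (code : Fin p → Fin l → Fin b)
    (hcode : Function.Injective code) (hk : 2 * l + 3 ≤ k)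
    (hn : 2 * (l * b) + 2 * p + k ≤ n + 2 + 2 * l) (f : MvPolynomial (Sym2 (Fin n)) K)
    (hf : IsTest k f) (φ : Formula K (Sym2 (Fin n)))
    (hφ : φ.eval = algebraMap (MvPolynomial (Sym2 (Fin n)) K) _ f) :
    (n / 2) * (n / 2 / (2 * (l * b))) * (p ^ 2 - 1) ≤ 8 * φ.size := by
  classical
  set N := 2 * (l * b) with hN
  set h := n / 2 with hh
  set G := h / N with hG
  let U : Type := Fin (k - 3 - 2 * l)
  have hcard : Fintype.card (Gp l U) = k := by
    rw [Fintype.card_option, Fintype.card_sum, Fintype.card_sum, Fintype.card_prod,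
      Fintype.card_bool, Fintype.card_fin, Fintype.card_fin]
    omega
  rw [← hcard] at hf
  have hbit : Fintype.card (Bit l (Fin b)) = N := by
    rw [Fintype.card_prod, Fintype.card_prod, Fintype.card_bool, Fintype.card_fin,
      Fintype.card_fin]
  let idx : Bit l (Fin b) ≃ Fin N := Fintype.equivFinOfCardEq hbit
  have hpos : ∀ (g : Fin G) (x : Bit l (Fin b)), h + N * g + idx x < n := by
    intro g x
    have h1 : N * g + idx x < N * (g + 1) := by
      have := (idx x).2
      rw [Nat.mul_add, Nat.mul_one]
      omega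
    have h2 : N * (g + 1) ≤ N * G := Nat.mul_le_mul_left _ g.2
    have h3 : N * G ≤ h := Nat.mul_div_le h N
    omega
  let pos : Fin G → Bit l (Fin b) → Fin n := fun g x => ⟨h + N * g + idx x, hpos g x⟩
  have hctr : ∀ a : Fin h, (a : ℕ) < n := fun a => by omega
  let ctr : Fin h → Fin n := fun a => ⟨a, hctr a⟩
  have hne : ∀ a g x, ctr a ≠ pos g x := by
    intro a g x h1
    have h2 := congrArg Fin.val h1
    simp only [ctr, pos] at h2
    omega
  have hposinj : ∀ g g' x x', pos g x = pos g' x' → g = g' ∧ x = x' := by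
    intro g g' x x' h1
    have h2 := congrArg Fin.val h1
    simp only [pos] at h2
    have h3 : N * g + idx x = N * g' + idx x' := by omega
    have hx := (idx x).2
    have hx' := (idx x').2
    have h4 : (g : ℕ) = g' := by
      have e1 : (N * g + idx x) / N = g := by
        rw [Nat.mul_add_div (by omega), Nat.div_eq_of_lt hx, Nat.add_zero]
      have e2 : (N * g' + idx x') / N = g' := by
        rw [Nat.mul_add_div (by omega), Nat.div_eq_of_lt hx', Nat.add_zero]
      rw [← e1, ← e2, h3]
    have h5 : g = g' := Fin.ext h4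
    refine ⟨h5, ?_⟩
    apply idx.injective
    apply Fin.ext
    rw [h4] at h3
    omega
  let D : Fin h × Fin G → Finset (Sym2 (Fin n)) := fun q => univ.image fun x => s(ctr q.1, pos q.2 x)
  have hD : ∀ i j v, v ∈ D i → v ∈ D j → i = j := by
    rintro ⟨a, g⟩ ⟨a', g'⟩ v hv hv'
    obtain ⟨x, _, rfl⟩ := mem_image.1 hv
    obtain ⟨x', _, hx'⟩ := mem_image.1 hv'
    rcases Sym2.eq_iff.1 hx' with ⟨h1, h2⟩ | ⟨h1, h2⟩
    · obtain ⟨h3, _⟩ := hposinj _ _ _ _ h2
      have h4 : (a' : ℕ) = a := by
        have := congrArg Fin.val h1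
        exact this
      exact Prod.ext (Fin.ext h4.symm) h3.symm
    · exact absurd h1 (hne _ _ _)
  have key : ∀ q : Fin h × Fin G, p ^ 2 ≤ 8 * φ.leavesIn (D q) + 1 := by
    rintro ⟨a, g⟩
    let e : Option (Bit l (Fin b)) ↪ Fin n := ⟨fun o => o.elim (ctr a) (pos g), by
      intro o o' h1
      rcases o with _ | x <;> rcases o' with _ | x'
      · rfl
      · exact absurd h1 (hne _ _ _)
      · exact absurd h1.symm (hne _ _ _)
      · rw [(hposinj _ _ _ _ h1).2]⟩
    obtain ⟨ψ, h1, h2⟩ := exists_emb (P := Fin p) (U := U) e (by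
      rw [Fintype.card_option, hbit, Fintype.card_sum, Fintype.card_prod, Fintype.card_bool,
        Fintype.card_fin, Fintype.card_fin]
      omega)
    have h3 := gadget code ψ f hcode hf φ hφ
    rw [Fintype.card_fin] at h3
    have h4 : blk ψ = D (a, g) := by
      unfold blk
      show univ.image (star ψ) = univ.image fun x => s(ctr a, pos g x)
      congr 1
      funext x
      unfold star
      rw [h1, h2]
      rfl
    rwa [h4] at h3
  have h1 := sum_leavesIn_le D hD φ
  have h2 : (∑ q : Fin h × Fin G, (p ^ 2 - 1)) ≤ ∑ q, 8 * φ.leavesIn (D q) :=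
    Finset.sum_le_sum fun q _ => by
      have := key q
      omega
  rw [Finset.sum_const, card_univ, Fintype.card_prod, Fintype.card_fin, Fintype.card_fin,
    smul_eq_mul, ← Finset.mul_sum] at h2
  exact h2.trans (Nat.mul_le_mul_left _ h1)

end Pool.Agent.Helper40.CliqueF
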