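import Pool.Agent.Helper40.CliqueF.Coeffs
import Pool.Agent.Helper40.CliqueF.AlgInd

/-!
# The gadget graph
-/

set_option autoImplicit false
set_option linter.unusedSectionVars false

namespace Pool.Agent.Helper40.CliqueF

open MvPolynomial Pool.Agent.Helper71.Fml

/-- keep only the variables of the edges of `G` -/
noncomputable def restrict {n : ℕ} (K : Type) [Field K] (G : SimpleGraph (Fin n)) :
    MvPolynomial (Sym2 (Fin n)) K →ₐ[K] MvPolynomial (Sym2 (Fin n)) K :=
  open Classical in aeval fun e => if e ∈ G.edgeSet then X e else 0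

/-- `f` is nonzero on a graph iff the graph has a `k`-clique. -/
def IsTest {n : ℕ} {K : Type} [Field K] (k : ℕ) (f : MvPolynomial (Sym2 (Fin n)) K) : Prop :=
  ∀ G : SimpleGraph (Fin n), restrict K G f ≠ 0 ↔ ∃ C : Finset (Fin n), G.IsNClique k C

/-- the digit vertices (side, position, digit) -/
abbrev Bit (l : ℕ) (B : Type) : Type := Bool × Fin l × B

/-- the vertices: the centre, the digit vertices, the control vertices, universal vertices -/
abbrev W (l : ℕ) (B P U : Type) : Type := Option (Bit l B ⊕ (Bool × P) ⊕ U)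

/-- the groups -/
abbrev Gp (l : ℕ) (U : Type) : Type := Option ((Bool × Fin l) ⊕ Bool ⊕ U)

/-- the choices -/
abbrev Ch (P : Type) : Type := Bool → P

variable {l n : ℕ} {B P U : Type}

/-- the digit vertex -/
def bit (s : Bool) (q : Fin l) (v : B) : W l B P U := some (Sum.inl (s, q, v))

/-- the control vertex -/
def ctrl (s : Bool) (r : P) : W l B P U := some (Sum.inr (Sum.inl (s, r)))

/-- the group of a vertex -/
def grp : W l B P U → Gp l U
  | none => none
  | some (Sum.inl (s, q, _)) => some (Sum.inl (s, q))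
  | some (Sum.inr (Sum.inl (s, _))) => some (Sum.inr (Sum.inl s))
  | some (Sum.inr (Sum.inr u)) => some (Sum.inr (Sum.inr u))

/-- a control vertex and a digit vertex that are not adjacent -/
def inc (code : P → Fin l → B) : W l B P U → W l B P U → Prop
  | some (Sum.inr (Sum.inl (s, r))), some (Sum.inl (s', q, v)) => s = s' ∧ code r q ≠ v
  | _, _ => False

/-- the section -/
def sec (code : P → Fin l → B) (κ : Ch P) : Gp l U → W l B P U
  | none => none
  | some (Sum.inl (s, q)) => bit s q (code (κ s) q)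
  | some (Sum.inr (Sum.inl s)) => ctrl s (κ s)
  | some (Sum.inr (Sum.inr u)) => some (Sum.inr (Sum.inr u))

variable (code : P → Fin l → B)

theorem grp_sec (κ : Ch P) (γ : Gp l U) : grp (sec code κ γ) = γ := by
  rcases γ with _ | ⟨s, q⟩ | s | u <;> rfl

theorem sec_injective (κ : Ch P) : Function.Injective (sec code κ : Gp l U → W l B P U) :=
  Function.LeftInverse.injective (grp_sec code κ)

theorem not_inc_sec (κ : Ch P) (γ γ' : Gp l U) :
    ¬ inc code (sec code κ γ) (sec code κ γ' : W l B P U) := by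
  rcases γ with _ | ⟨s, q⟩ | s | u <;> rcases γ' with _ | ⟨s', q'⟩ | s' | u' <;>
    simp only [sec, inc, bit, ctrl, not_false_iff, not_and, not_not]
  rintro rfl
  rfl

/-- the gadget graph -/
def gad (U : Type) : SimpleGraph (W l B P U) where
  Adj x y := grp x ≠ grp y ∧ ¬ inc code x y ∧ ¬ inc code y x
  symm := ⟨fun _ _ h => ⟨h.1.symm, h.2.2, h.2.1⟩⟩
  loopless := ⟨fun _ h => h.1 rfl⟩

/-- a clique which meets every group is a section -/
theorem clique_sec (C : Set (W l B P U))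
    (hC : ∀ x ∈ C, ∀ y ∈ C, x ≠ y → (gad code U).Adj x y)
    (hs : ∀ γ, ∃ x ∈ C, grp x = γ) : ∃ κ : Ch P, ∀ γ, sec code κ γ ∈ C := by
  have h1 : ∀ s : Bool, ∃ r : P, (ctrl s r : W l B P U) ∈ C := by
    intro s
    obtain ⟨x, hx, hg⟩ := hs (some (Sum.inr (Sum.inl s)))
    rcases x with _ | ⟨s', q, v⟩ | ⟨s', r⟩ | u
    · cases hg
    · cases hg
    · cases hg
      exact ⟨r, hx⟩
    · cases hg
  choose κ hκ using h1
  refine ⟨κ, fun γ => ?_⟩
  obtain ⟨x, hx, hg⟩ := hs γ
  rcases γ with _ | ⟨s, q⟩ | s | u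
  · rcases x with _ | ⟨s', q', v⟩ | ⟨s', r⟩ | u
    · exact hx
    · cases hg
    · cases hg
    · cases hg
  · rcases x with _ | ⟨s', q', v⟩ | ⟨s', r⟩ | u
    · cases hg
    · simp only [grp, Option.some.injEq, Sum.inl.injEq, Prod.mk.injEq] at hg
      obtain ⟨rfl, rfl⟩ := hg
      have h2 : (gad code U).Adj (ctrl s' (κ s')) (some (Sum.inl (s', q', v))) :=
        hC _ (hκ s') _ hx (by intro h; cases h)
      have h3 : code (κ s') q' = v := by
        by_contra h
        exact h2.2.1 ⟨rfl, h⟩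
      show (bit s' q' (code (κ s') q') : W l B P U) ∈ C
      rw [h3]
      exact hx
    · cases hg
    · cases hg
  · exact hκ s
  · rcases x with _ | ⟨s', q', v⟩ | ⟨s', r⟩ | u'
    · cases hg
    · cases hg
    · cases hg
    · cases hg
      exact hx

section

variable (ψ : W l B P U ↪ Fin n)

/-- the gadget graph on `Fin n` -/
def HH : SimpleGraph (Fin n) := (gad code U).map ψ

/-- the edge of two groups -/
def ed (κ : Ch P) (γ γ' : Gp l U) : Sym2 (Fin n) := s(ψ (sec code κ γ), ψ (sec code κ γ'))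

/-- the edges of a clique -/
def EK (κ : Ch P) : Set (Sym2 (Fin n)) := {e | ∃ γ γ', γ ≠ γ' ∧ e = ed code ψ κ γ γ'}

theorem ed_mem_HH (κ : Ch P) {γ γ' : Gp l U} (h : γ ≠ γ') :
    ed code ψ κ γ γ' ∈ (HH code ψ).edgeSet := by
  show (HH code ψ).Adj _ _
  refine (SimpleGraph.map_adj _ _ _ _).2 ⟨_, _, ?_, rfl, rfl⟩
  refine ⟨?_, not_inc_sec code κ _ _, not_inc_sec code κ _ _⟩
  rw [grp_sec, grp_sec]
  exact h

theorem EK_subset_HH (κ : Ch P) : EK code ψ κ ⊆ (HH code ψ).edgeSet := by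
  rintro e ⟨γ, γ', h, rfl⟩
  exact ed_mem_HH code ψ κ h

/-- vertices of the edges of a clique -/
theorem mem_of_EK {κ : Ch P} {x y : W l B P U} (h : s(ψ x, ψ y) ∈ EK code ψ κ) :
    (∃ γ, sec code κ γ = x) ∧ ∃ γ, sec code κ γ = y := by
  obtain ⟨γ, γ', _, h1⟩ := h
  unfold ed at h1
  rcases Sym2.eq_iff.1 h1 with ⟨h2, h3⟩ | ⟨h2, h3⟩
  · exact ⟨⟨γ, (ψ.injective h2).symm⟩, ⟨γ', (ψ.injective h3).symm⟩⟩
  · exact ⟨⟨γ', (ψ.injective h2).symm⟩, ⟨γ, (ψ.injective h3).symm⟩⟩

/-- the star edge -/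
def star (x : Bit l B) : Sym2 (Fin n) := s(ψ none, ψ (some (Sum.inl x)))

theorem star_mem (κ : Ch P) (s : Bool) (q : Fin l) :
    star ψ (s, q, code (κ s) q) ∈ EK code ψ κ :=
  ⟨none, some (Sum.inl (s, q)), by simp, rfl⟩

theorem eq_of_star_mem {κ : Ch P} {s : Bool} {q : Fin l} {v : B}
    (h : star ψ (s, q, v) ∈ EK code ψ κ) : code (κ s) q = v := by
  obtain ⟨_, γ, hγ⟩ := mem_of_EK code ψ h
  rcases γ with _ | ⟨s', q'⟩ | s' | u
  · cases hγ
  · simp only [sec, bit, Option.some.injEq, Sum.inl.injEq, Prod.mk.injEq] at hγ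
    obtain ⟨rfl, rfl, h3⟩ := hγ
    exact h3
  · cases hγ
  · cases hγ

theorem eq_of_stars (hcode : Function.Injective code) {κ κ' : Ch P}
    (h : ∀ s q, star ψ (s, q, code (κ' s) q) ∈ EK code ψ κ) : κ' = κ := by
  funext s
  apply hcode
  funext q
  exact (eq_of_star_mem code ψ (h s q)).symm

/-- the private edge -/
def pe (κ : Ch P) : Sym2 (Fin n) := s(ψ (ctrl false (κ false)), ψ (ctrl true (κ true)))

theorem pe_mem (κ : Ch P) : pe ψ κ ∈ EK code ψ κ :=
  ⟨some (Sum.inr (Sum.inl false)), some (Sum.inr (Sum.inl true)), by simp, rfl⟩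

theorem eq_of_pe_mem {κ κ' : Ch P} (h : pe ψ κ' ∈ EK code ψ κ) : κ' = κ := by
  obtain ⟨⟨γ, hγ⟩, ⟨γ', hγ'⟩⟩ := mem_of_EK code ψ h
  have key : ∀ (s : Bool) (γ : Gp l U), sec code κ γ = ctrl s (κ' s) → κ' s = κ s := by
    intro s γ hγ
    rcases γ with _ | ⟨s', q'⟩ | s' | u
    · cases hγ
    · cases hγ
    · simp only [sec, ctrl, Option.some.injEq, Sum.inr.injEq, Sum.inl.injEq, Prod.mk.injEq] at hγ
      obtain ⟨rfl, h3⟩ := hγ
      exact h3.symm
    · cases hγ
  funext s
  cases s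
  · exact key false γ hγ
  · exact key true γ' hγ'

/-- the block -/
def blk [Fintype B] [DecidableEq (Sym2 (Fin n))] : Finset (Sym2 (Fin n)) :=
  Finset.univ.image (star ψ)

theorem star_mem_blk [Fintype B] (x : Bit l B) : star ψ x ∈ blk ψ :=
  Finset.mem_image_of_mem _ (Finset.mem_univ _)

theorem pe_not_mem_blk [Fintype B] (κ : Ch P) : ¬ pe ψ κ ∈ blk ψ := by
  intro h
  obtain ⟨x, _, hx⟩ := Finset.mem_image.1 h
  unfold star pe at hx
  rcases Sym2.eq_iff.1 hx with ⟨h2, h3⟩ | ⟨h2, h3⟩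
  · cases ψ.injective h2
  · cases ψ.injective h2

variable [Fintype U]

/-- the graph of a clique -/
def GK (κ : Ch P) : SimpleGraph (Fin n) := SimpleGraph.fromEdgeSet (EK code ψ κ)

theorem ed_not_diag (κ : Ch P) {γ γ' : Gp l U} (h : γ ≠ γ') :
    ¬ (ed code ψ κ γ γ').IsDiag := by
  unfold ed
  rw [Sym2.mk_isDiag_iff]
  intro h1
  exact h (sec_injective code κ (ψ.injective h1))

theorem GK_edgeSet (κ : Ch P) : (GK code ψ κ).edgeSet = EK code ψ κ := by
  unfold GK
  rw [SimpleGraph.edgeSet_fromEdgeSet]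
  ext e
  constructor
  · rintro ⟨h, _⟩
    exact h
  · intro h
    refine ⟨h, ?_⟩
    obtain ⟨γ, γ', h1, rfl⟩ := h
    exact ed_not_diag code ψ κ h1

/-- the clique -/
def CK (κ : Ch P) : Finset (Fin n) := Finset.univ.map ⟨fun γ : Gp l U => ψ (sec code κ γ),
  fun _ _ h => sec_injective code κ (ψ.injective h)⟩

theorem isNClique (κ : Ch P) :
    (GK code ψ κ).IsNClique (Fintype.card (Gp l U)) (CK code ψ κ) := by
  refine ⟨?_, ?_⟩
  · intro x hx y hy hxy
    simp only [CK, Finset.coe_map, Finset.coe_univ, Set.image_univ, Set.mem_range,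
      Function.Embedding.coeFn_mk] at hx hy
    obtain ⟨γ, rfl⟩ := hx
    obtain ⟨γ', rfl⟩ := hy
    have h1 : γ ≠ γ' := fun h => hxy (by rw [h])
    show s(ψ (sec code κ γ), ψ (sec code κ γ')) ∈ (GK code ψ κ).edgeSet
    rw [GK_edgeSet]
    exact ⟨γ, γ', h1, rfl⟩
  · unfold CK
    rw [Finset.card_map, Finset.card_univ]

/-- a clique in a subgraph of the gadget graph -/
theorem exists_of_clique (G : SimpleGraph (Fin n)) (hG : G ≤ HH code ψ) (C : Finset (Fin n))
    (hC : G.IsNClique (Fintype.card (Gp l U)) C) : ∃ κ : Ch P, EK code ψ κ ⊆ G.edgeSet := by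
  classical
  have hcard : C.card = Fintype.card (Gp l U) := hC.2
  have h3 : 3 ≤ Fintype.card (Gp l U) := by
    rw [Fintype.card_option, Fintype.card_sum, Fintype.card_sum, Fintype.card_bool]
    omega
  have hadj : ∀ x ∈ C, ∀ y ∈ C, x ≠ y → G.Adj x y := fun x hx y hy h => hC.1 hx hy h
  -- the vertices of the clique are vertices of the gadget
  have hpre : ∀ x ∈ C, ∃ w : W l B P U, ψ w = x := by
    intro x hx
    obtain ⟨y, hy, hxy⟩ := Finset.exists_mem_ne (s := C) (by omega) x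
    have h1 := hG (hadj x hx y hy hxy.symm)
    obtain ⟨a, b, _, ha, _⟩ := (SimpleGraph.map_adj _ _ _ _).1 h1
    exact ⟨a, ha⟩
  let C' : Set (W l B P U) := {w | ψ w ∈ C}
  have hC' : ∀ x ∈ C', ∀ y ∈ C', x ≠ y → (gad code U).Adj x y := by
    intro x hx y hy hxy
    have h1 := hG (hadj _ hx _ hy (fun h => hxy (ψ.injective h)))
    obtain ⟨a, b, hab, ha, hb⟩ := (SimpleGraph.map_adj _ _ _ _).1 h1
    rwa [ψ.injective ha, ψ.injective hb] at hab
  have hs : ∀ γ, ∃ x ∈ C', grp x = γ := by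
    choose! p hp using hpre
    have hinj : Set.InjOn (fun x => grp (p x)) (C : Set (Fin n)) := by
      intro x hx y hy h
      by_contra hne
      have h1 : p x ≠ p y := fun h' => hne (by rw [← hp x hx, ← hp y hy, h'])
      have h2 := hC' (p x) (by show ψ (p x) ∈ C; rw [hp x hx]; exact hx) (p y)
        (by show ψ (p y) ∈ C; rw [hp y hy]; exact hy) h1
      exact h2.1 h
    have h4 : (C.image fun x => grp (p x)) = Finset.univ := by
      rw [← Finset.card_eq_iff_eq_univ, Finset.card_image_of_injOn hinj, hcard]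
    intro γ
    have h5 : γ ∈ C.image fun x => grp (p x) := by
      rw [h4]
      exact Finset.mem_univ _
    obtain ⟨x, hx, hx'⟩ := Finset.mem_image.1 h5
    exact ⟨p x, by show ψ (p x) ∈ C; rw [hp x hx]; exact hx, hx'⟩
  obtain ⟨κ, hκ⟩ := clique_sec code C' hC' hs
  refine ⟨κ, ?_⟩
  rintro e ⟨γ, γ', h, rfl⟩
  exact hadj _ (hκ γ) _ (hκ γ') fun h' => h (sec_injective code κ (ψ.injective h'))

variable {K : Type} [Field K] (f : MvPolynomial (Sym2 (Fin n)) K)

theorem coeff_restrict_pos (G : SimpleGraph (Fin n)) (m : Sym2 (Fin n) →₀ ℕ)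
    (h : ∀ e ∈ m.support, e ∈ G.edgeSet) : coeff m (restrict K G f) = coeff m f := by
  classical
  unfold restrict
  exact coeff_aeval_pos _ f m h

theorem coeff_restrict_ne (G : SimpleGraph (Fin n)) (m : Sym2 (Fin n) →₀ ℕ)
    (h : coeff m (restrict K G f) ≠ 0) : (∀ e ∈ m.support, e ∈ G.edgeSet) ∧ coeff m f ≠ 0 := by
  classical
  unfold restrict at h
  exact coeff_aeval_ne _ f m h

/-- monomials contain cliques -/
theorem exists_EK (hf : IsTest (Fintype.card (Gp l U)) f) (m : Sym2 (Fin n) →₀ ℕ)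
    (hm : coeff m f ≠ 0) (hH : ∀ e ∈ m.support, e ∈ (HH code ψ).edgeSet) :
    ∃ κ : Ch P, ∀ e ∈ EK code ψ κ, e ∈ m.support := by
  classical
  let G : SimpleGraph (Fin n) := SimpleGraph.fromEdgeSet (m.support : Set (Sym2 (Fin n)))
  have hGe : ∀ e, e ∈ G.edgeSet ↔ e ∈ m.support := by
    intro e
    show e ∈ (SimpleGraph.fromEdgeSet (m.support : Set (Sym2 (Fin n)))).edgeSet ↔ _
    rw [SimpleGraph.edgeSet_fromEdgeSet]
    constructor
    · rintro ⟨h, _⟩
      exact h
    · intro h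
      exact ⟨h, (HH code ψ).not_isDiag_of_mem_edgeSet (hH e h)⟩
  have hG : G ≤ HH code ψ := by
    rw [← SimpleGraph.edgeSet_subset_edgeSet]
    intro e he
    exact hH e ((hGe e).1 he)
  have h1 : restrict K G f ≠ 0 := by
    intro h0
    have h2 := coeff_restrict_pos f G m fun e he => (hGe e).2 he
    rw [h0, coeff_zero] at h2
    exact hm h2.symm
  obtain ⟨C, hC⟩ := (hf G).1 h1
  obtain ⟨κ, hκ⟩ := exists_of_clique code ψ G hG C hC
  exact ⟨κ, fun e he => (hGe e).1 (hκ he)⟩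

/-- a monomial for every clique -/
theorem exists_monomial (hcode : Function.Injective code)
    (hf : IsTest (Fintype.card (Gp l U)) f) (κ : Ch P) :
    ∃ m : Sym2 (Fin n) →₀ ℕ, coeff m f ≠ 0 ∧ ∀ e, e ∈ m.support ↔ e ∈ EK code ψ κ := by
  classical
  have h1 : restrict K (GK code ψ κ) f ≠ 0 := (hf _).2 ⟨_, isNClique code ψ κ⟩
  obtain ⟨m, hm⟩ := MvPolynomial.ne_zero_iff.1 h1
  obtain ⟨h2, hm⟩ := coeff_restrict_ne f _ m hm
  rw [GK_edgeSet] at h2
  refine ⟨m, hm, fun e => ⟨h2 e, fun he => ?_⟩⟩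
  obtain ⟨κ', hκ'⟩ := exists_EK code ψ f hf m hm fun e he => EK_subset_HH code ψ κ (h2 e he)
  have h3 : κ' = κ := eq_of_stars code ψ hcode fun s q => h2 _ (hκ' _ (star_mem code ψ κ' s q))
  rw [h3] at hκ'
  exact hκ' e he

/-- The gadget bound. -/
theorem gadget [Fintype B] [Fintype P] (hcode : Function.Injective code)
    (hf : IsTest (Fintype.card (Gp l U)) f) (φ : Formula K (Sym2 (Fin n)))
    (hφ : φ.eval = algebraMap (MvPolynomial (Sym2 (Fin n)) K) _ f) :
    Fintype.card P ^ 2 ≤ 8 * φ.leavesIn (blk ψ) + 1 := by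
  classical
  choose m hm1 hm2 using exists_monomial code ψ f hcode hf
  let D := blk ψ
  let a : Ch P → (Dc D →₀ ℕ) := fun κ => (m κ).subtypeDomain fun v => v ∈ D
  let σ : MvPolynomial (Oc D) K →ₐ[K] MvPolynomial (Oc D) K :=
    aeval fun e : Oc D => if (e : Sym2 (Fin n)) ∈ (HH code ψ).edgeSet then X e else 0
  let Y : Ch P → Oc D := fun κ => ⟨pe ψ κ, pe_not_mem_blk ψ κ⟩
  have hσ1 : ∀ g b, (∀ e ∈ b.support, ((e : Oc D) : Sym2 (Fin n)) ∈ (HH code ψ).edgeSet) →
      coeff b (σ g) = coeff b g := by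
    intro g b h
    exact coeff_aeval_pos (fun e : Oc D => (e : Sym2 (Fin n)) ∈ (HH code ψ).edgeSet) g b h
  have hσ2 : ∀ g b, coeff b (σ g) ≠ 0 →
      (∀ e ∈ b.support, ((e : Oc D) : Sym2 (Fin n)) ∈ (HH code ψ).edgeSet) ∧ coeff b g ≠ 0 := by
    intro g b h
    exact coeff_aeval_ne (fun e : Oc D => (e : Sym2 (Fin n)) ∈ (HH code ψ).edgeSet) g b h
  have hind : AlgebraicIndependent K (σ ∘ fun κ => coeff (a κ) (part K D f)) := by
    refine algInd Y _ ?_ ?_
    · intro κ
      refine X_dvd_of_support _ _ fun b hb => ?_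
      rw [Function.comp_apply] at hb
      obtain ⟨h1, hb⟩ := hσ2 _ _ hb
      rw [coeff_coeff_part] at hb
      have h2 : ∀ v (hv : v ∈ D), comb (a κ) b v = m κ v := by
        intro v hv
        rw [comb_mem _ _ hv]
        rfl
      obtain ⟨κ', hκ'⟩ := exists_EK code ψ f hf _ hb (by
        intro v hv
        rw [Finsupp.mem_support_iff] at hv
        by_cases hvD : v ∈ D
        · rw [h2 v hvD] at hv
          exact EK_subset_HH code ψ κ ((hm2 κ v).1 (Finsupp.mem_support_iff.2 hv))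
        · rw [comb_not_mem _ _ hvD] at hv
          exact h1 ⟨v, hvD⟩ (Finsupp.mem_support_iff.2 hv))
      have h3 : κ' = κ := eq_of_stars code ψ hcode fun s q => by
        have h4 := hκ' _ (star_mem code ψ κ' s q)
        rw [Finsupp.mem_support_iff, h2 _ (star_mem_blk ψ _)] at h4
        exact (hm2 κ _).1 (Finsupp.mem_support_iff.2 h4)
      rw [h3] at hκ'
      have h5 := hκ' _ (pe_mem code ψ κ)
      rw [Finsupp.mem_support_iff, comb_not_mem _ _ (pe_not_mem_blk ψ κ)] at h5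
      exact h5
    · intro κ h0
      have h1 := congrArg (coeff ((m κ).subtypeDomain fun v => ¬ v ∈ D)) h0
      rw [coeff_zero, coeff_zer, Function.comp_apply, hσ1, coeff_coeff_part, comb_restrict] at h1
      · exact hm1 κ h1
      · intro e he
        rw [Finsupp.mem_support_iff, Finsupp.subtypeDomain_apply] at he
        exact EK_subset_HH code ψ κ ((hm2 κ _).1 (Finsupp.mem_support_iff.2 he))
      · rintro e he ⟨j, hj, rfl⟩
        rw [Finsupp.mem_support_iff, Finsupp.subtypeDomain_apply] at he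
        exact hj (eq_of_pe_mem code ψ ((hm2 κ _).1 (Finsupp.mem_support_iff.2 he)))
  have h1 := kalorkoti (D := D) φ f hφ a (AlgebraicIndependent.of_comp σ hind)
  rwa [Fintype.card_fun, Fintype.card_bool] at h1

end

end Pool.Agent.Helper40.CliqueF
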