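import Pool.Agent.Helper71.Formula.Defs

/-!
# Kalorkoti's bound in arbitrary characteristic (transcendence degree form)
-/

set_option autoImplicit false
set_option linter.unusedSectionVars false

namespace Pool.Agent.Helper40.CliqueF

open MvPolynomial Pool.Agent.Helper71.Fml

section

variable (K : Type) {V : Type} [Field K] [DecidableEq V] (D : Finset V)

/-- the variables outside `D` -/
abbrev Oc : Type := {v : V // ¬ v ∈ D}

/-- the variables in `D` -/
abbrev Dc : Type := {v : V // v ∈ D}

/-- the functions without variables of `D` -/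
abbrev E : Type := FractionRing (MvPolynomial (Oc D) K)

/-- the polynomials in the variables of `D` -/
abbrev S : Type := MvPolynomial (Dc D) (E K D)

/-- the rational functions -/
abbrev L : Type := FractionRing (S K D)

/-- split the variables -/
noncomputable def part : MvPolynomial V K →+* MvPolynomial (Dc D) (MvPolynomial (Oc D) K) :=
  (sumRingEquiv K (Dc D) (Oc D)).toRingHom.comp
    (rename (Equiv.sumCompl (fun v => v ∈ D)).symm : MvPolynomial V K →ₐ[K] _).toRingHom

theorem part_X_mem {v : V} (h : v ∈ D) : part K D (X v) = X ⟨v, h⟩ := by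
  show sumRingEquiv K (Dc D) (Oc D) (rename _ (X v)) = _
  rw [rename_X, Equiv.sumCompl_symm_apply_of_pos h, sumRingEquiv_X_inl]

theorem part_X_not_mem {v : V} (h : ¬ v ∈ D) : part K D (X v) = C (X ⟨v, h⟩) := by
  show sumRingEquiv K (Dc D) (Oc D) (rename _ (X v)) = _
  rw [rename_X, Equiv.sumCompl_symm_apply_of_neg h, sumRingEquiv_X_inr]

theorem part_C (c : K) : part K D (C c) = C (C c) := by
  show sumRingEquiv K (Dc D) (Oc D) (rename _ (C c)) = _
  rw [rename_C, sumRingEquiv_C]

theorem part_injective : Function.Injective (part K D) :=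
  (sumRingEquiv K (Dc D) (Oc D)).injective.comp (rename_injective _ (Equiv.injective _))

/-- the polynomials in the variables of `D` -/
noncomputable def toS : MvPolynomial V K →+* S K D :=
  (MvPolynomial.map (algebraMap (MvPolynomial (Oc D) K) (E K D))).comp (part K D)

theorem toS_injective : Function.Injective (toS K D) :=
  (map_injective _ (IsFractionRing.injective _ _)).comp (part_injective K D)

theorem toL_injective : Function.Injective ((algebraMap (S K D) (L K D)).comp (toS K D)) :=
  (IsFractionRing.injective (S K D) (L K D)).comp (toS_injective K D)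

/-- the change of the model -/
noncomputable def hL : FractionRing (MvPolynomial V K) →+* L K D :=
  IsFractionRing.lift (toL_injective K D)

theorem hL_algebraMap (p : MvPolynomial V K) :
    hL K D (algebraMap _ _ p) = algebraMap (S K D) (L K D) (toS K D p) :=
  IsFractionRing.lift_algebraMap (toL_injective K D) p

/-- the functions without variables of `D` -/
noncomputable def eps : E K D →+* L K D := (algebraMap (S K D) (L K D)).comp C

/-- the field generated by a set of coefficients and the variables of `D` -/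
noncomputable def Fld (T : Set (E K D)) : Subfield (L K D) :=
  Subfield.closure ((eps K D) '' (IntermediateField.adjoin K T : Set (E K D)) ∪
    Set.range fun d : Dc D => algebraMap (S K D) (L K D) (X d))

end

section

variable {K V : Type} [Field K] [DecidableEq V] {D : Finset V}

theorem Fld_mono {T T' : Set (E K D)} (h : T ⊆ T') : Fld K D T ≤ Fld K D T' := by
  apply Subfield.closure_mono
  apply Set.union_subset_union_left
  apply Set.image_mono
  exact IntermediateField.adjoin.mono K T T' h

theorem eps_mem_Fld {T : Set (E K D)} {t : E K D} (h : t ∈ T) : eps K D t ∈ Fld K D T :=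
  Subfield.subset_closure (Or.inl ⟨t, IntermediateField.subset_adjoin K T h, rfl⟩)

theorem X_mem_Fld (T : Set (E K D)) (d : Dc D) :
    algebraMap (S K D) (L K D) (X d) ∈ Fld K D T :=
  Subfield.subset_closure (Or.inr ⟨d, rfl⟩)

/-- `f` is a Moebius transform (over the functions without variables of `D`) of a function in a
field with few generators. -/
def Good (f : L K D) (m : ℕ) : Prop :=
  ∃ T : Finset (E K D), T.card ≤ m ∧ ∃ g ∈ Fld K D (T : Set (E K D)), ∃ α β γ δ : E K D,
    eps K D γ * g + eps K D δ ≠ 0 ∧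
      f = (eps K D α * g + eps K D β) / (eps K D γ * g + eps K D δ)

theorem good_of_mem {T : Finset (E K D)} {m : ℕ} (hT : T.card ≤ m) {f : L K D}
    (hf : f ∈ Fld K D (T : Set (E K D))) : Good f m := by
  refine ⟨T, hT, f, hf, 1, 0, 0, 1, ?_, ?_⟩
  · simp
  · simp

theorem good_zero (m : ℕ) : Good (0 : L K D) m :=
  good_of_mem (T := ∅) (by simp) (zero_mem _)

theorem Good.inv {f : L K D} {m : ℕ} (h : Good f m) : Good f⁻¹ m := by
  by_cases hf : f = 0
  · subst hf
    rw [inv_zero]
    exact good_zero m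
  obtain ⟨T, hT, g, hg, α, β, γ, δ, h0, rfl⟩ := h
  refine ⟨T, hT, g, hg, γ, δ, α, β, ?_, ?_⟩
  · intro h1
    apply hf
    rw [h1, zero_div]
  · rw [inv_div]

theorem Good.addE {f : L K D} {m : ℕ} (h : Good f m) (c : E K D) : Good (f + eps K D c) m := by
  obtain ⟨T, hT, g, hg, α, β, γ, δ, h0, rfl⟩ := h
  refine ⟨T, hT, g, hg, α + c * γ, β + c * δ, γ, δ, h0, ?_⟩
  rw [map_add, map_add, map_mul, map_mul, eq_div_iff h0, add_mul, div_mul_cancel₀ _ h0]
  ring

theorem Good.mulE {f : L K D} {m : ℕ} (h : Good f m) (c : E K D) : Good (f * eps K D c) m := by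
  obtain ⟨T, hT, g, hg, α, β, γ, δ, h0, rfl⟩ := h
  refine ⟨T, hT, g, hg, c * α, c * β, γ, δ, h0, ?_⟩
  rw [map_mul, map_mul]
  field_simp

/-- Two functions and all operations on them. -/
theorem Good.both {f f' : L K D} {m m' : ℕ} (h : Good f m) (h' : Good f' m') :
    ∃ T : Finset (E K D), T.card ≤ m + m' + 8 ∧ f ∈ Fld K D (T : Set (E K D)) ∧
      f' ∈ Fld K D (T : Set (E K D)) := by
  classical
  obtain ⟨T, hT, g, hg, α, β, γ, δ, h0, rfl⟩ := h
  obtain ⟨T', hT', g', hg', α', β', γ', δ', h0', rfl⟩ := h'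
  refine ⟨(T ∪ T') ∪ ({α, β, γ, δ} ∪ {α', β', γ', δ'}), ?_, ?_, ?_⟩
  · refine (Finset.card_union_le _ _).trans ?_
    have h1 := Finset.card_union_le T T'
    have h2 := Finset.card_union_le ({α, β, γ, δ} : Finset (E K D)) {α', β', γ', δ'}
    have h3 : ({α, β, γ, δ} : Finset (E K D)).card ≤ 4 := Finset.card_le_four
    have h4 : ({α', β', γ', δ'} : Finset (E K D)).card ≤ 4 := Finset.card_le_four
    omega
  · have hg1 := Fld_mono (K := K) (D := D) (T := (T : Set (E K D)))
      (T' := (((T ∪ T') ∪ ({α, β, γ, δ} ∪ {α', β', γ', δ'}) : Finset (E K D)) : Set (E K D)))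
      (by
        intro x hx
        simp only [Finset.coe_union, Set.mem_union]
        exact Or.inl (Or.inl hx)) hg
    have hm : ∀ x ∈ ({α, β, γ, δ} : Finset (E K D)), eps K D x ∈ Fld K D
        (((T ∪ T') ∪ ({α, β, γ, δ} ∪ {α', β', γ', δ'}) : Finset (E K D)) : Set (E K D)) := by
      intro x hx
      apply eps_mem_Fld
      rw [Finset.mem_coe, Finset.mem_union]
      exact Or.inr (Finset.mem_union_left _ hx)
    exact div_mem (add_mem (mul_mem (hm α (by simp)) hg1) (hm β (by simp)))
      (add_mem (mul_mem (hm γ (by simp)) hg1) (hm δ (by simp)))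
  · have hg1 := Fld_mono (K := K) (D := D) (T := (T' : Set (E K D)))
      (T' := (((T ∪ T') ∪ ({α, β, γ, δ} ∪ {α', β', γ', δ'}) : Finset (E K D)) : Set (E K D)))
      (by
        intro x hx
        simp only [Finset.coe_union, Set.mem_union]
        exact Or.inl (Or.inr hx)) hg'
    have hm : ∀ x ∈ ({α', β', γ', δ'} : Finset (E K D)), eps K D x ∈ Fld K D
        (((T ∪ T') ∪ ({α, β, γ, δ} ∪ {α', β', γ', δ'}) : Finset (E K D)) : Set (E K D)) := by
      intro x hx
      apply eps_mem_Fld
      rw [Finset.mem_coe, Finset.mem_union]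
      exact Or.inr (Finset.mem_union_right _ hx)
    exact div_mem (add_mem (mul_mem (hm α' (by simp)) hg1) (hm β' (by simp)))
      (add_mem (mul_mem (hm γ' (by simp)) hg1) (hm δ' (by simp)))

theorem Good.add {f f' : L K D} {m m' : ℕ} (h : Good f m) (h' : Good f' m') :
    Good (f + f') (m + m' + 8) := by
  obtain ⟨T, hT, h1, h2⟩ := h.both h'
  exact good_of_mem hT (add_mem h1 h2)

theorem Good.mul {f f' : L K D} {m m' : ℕ} (h : Good f m) (h' : Good f' m') :
    Good (f * f') (m + m' + 8) := by
  obtain ⟨T, hT, h1, h2⟩ := h.both h'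
  exact good_of_mem hT (mul_mem h1 h2)

/-- The induction over the formula. -/
theorem formula_good (φ : Formula K V) :
    (φ.leavesIn D = 0 → hL K D φ.eval ∈ (eps K D).range) ∧
      (1 ≤ φ.leavesIn D → Good (hL K D φ.eval) (8 * (φ.leavesIn D - 1))) := by
  have hadd : ∀ (f g : L K D) (a b : ℕ),
      ((a = 0 → f ∈ (eps K D).range) ∧ (1 ≤ a → Good f (8 * (a - 1)))) →
      ((b = 0 → g ∈ (eps K D).range) ∧ (1 ≤ b → Good g (8 * (b - 1)))) →
      ((a + b = 0 → f + g ∈ (eps K D).range) ∧ (1 ≤ a + b → Good (f + g) (8 * (a + b - 1)))) := by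
    rintro f g a b ⟨ha0, ha1⟩ ⟨hb0, hb1⟩
    refine ⟨fun h => add_mem (ha0 (by omega)) (hb0 (by omega)), fun h => ?_⟩
    rcases Nat.eq_zero_or_pos a with h0 | h0
    · subst h0
      obtain ⟨c, hc⟩ := ha0 rfl
      rw [zero_add, add_comm f g, ← hc]
      exact (hb1 (by omega)).addE c
    · rcases Nat.eq_zero_or_pos b with h1 | h1
      · subst h1
        obtain ⟨c, hc⟩ := hb0 rfl
        rw [add_zero, ← hc]
        exact (ha1 h0).addE c
      · have := (ha1 h0).add (hb1 h1)
        rwa [show 8 * (a - 1) + 8 * (b - 1) + 8 = 8 * (a + b - 1) by omega] at this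
  have hmul : ∀ (f g : L K D) (a b : ℕ),
      ((a = 0 → f ∈ (eps K D).range) ∧ (1 ≤ a → Good f (8 * (a - 1)))) →
      ((b = 0 → g ∈ (eps K D).range) ∧ (1 ≤ b → Good g (8 * (b - 1)))) →
      ((a + b = 0 → f * g ∈ (eps K D).range) ∧ (1 ≤ a + b → Good (f * g) (8 * (a + b - 1)))) := by
    rintro f g a b ⟨ha0, ha1⟩ ⟨hb0, hb1⟩
    refine ⟨fun h => mul_mem (ha0 (by omega)) (hb0 (by omega)), fun h => ?_⟩
    rcases Nat.eq_zero_or_pos a with h0 | h0
    · subst h0
      obtain ⟨c, hc⟩ := ha0 rfl
      rw [zero_add, mul_comm f g, ← hc]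
      exact (hb1 (by omega)).mulE c
    · rcases Nat.eq_zero_or_pos b with h1 | h1
      · subst h1
        obtain ⟨c, hc⟩ := hb0 rfl
        rw [add_zero, ← hc]
        exact (ha1 h0).mulE c
      · have := (ha1 h0).mul (hb1 h1)
        rwa [show 8 * (a - 1) + 8 * (b - 1) + 8 = 8 * (a + b - 1) by omega] at this
  induction φ with
  | const c =>
    refine ⟨fun _ => ⟨algebraMap (MvPolynomial (Oc D) K) (E K D) (C c), ?_⟩, fun h => ?_⟩
    · show _ = hL K D (algebraMap _ _ (C c))
      rw [hL_algebraMap]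
      show algebraMap (S K D) (L K D) (C _) = algebraMap (S K D) (L K D) (map _ (part K D (C c)))
      rw [part_C, map_C]
    · simp [Formula.leavesIn] at h
  | var v =>
    simp only [Formula.leavesIn, Formula.eval]
    rw [hL_algebraMap]
    by_cases hv : v ∈ D
    · rw [if_pos hv]
      refine ⟨fun h => absurd h one_ne_zero, fun _ => ?_⟩
      refine good_of_mem (T := ∅) (by simp) ?_
      show algebraMap (S K D) (L K D) (map _ (part K D (X v))) ∈ _
      rw [part_X_mem K D hv, map_X]
      exact X_mem_Fld _ _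
    · rw [if_neg hv]
      refine ⟨fun _ => ⟨algebraMap (MvPolynomial (Oc D) K) (E K D) (X ⟨v, hv⟩), ?_⟩,
        fun h => absurd h (by omega)⟩
      show algebraMap (S K D) (L K D) (C _) = algebraMap (S K D) (L K D) (map _ (part K D (X v)))
      rw [part_X_not_mem K D hv, map_C]
  | add a b iha ihb =>
    simp only [Formula.leavesIn, Formula.eval]
    rw [map_add]
    exact hadd _ _ _ _ iha ihb
  | mul a b iha ihb =>
    simp only [Formula.leavesIn, Formula.eval]
    rw [map_mul]
    exact hmul _ _ _ _ iha ihb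
  | div a b iha ihb =>
    simp only [Formula.leavesIn, Formula.eval]
    rw [div_eq_mul_inv, map_mul, map_inv₀]
    refine hmul _ _ _ _ iha ⟨fun h => ?_, fun h => (ihb.2 h).inv⟩
    obtain ⟨c, hc⟩ := ihb.1 h
    exact ⟨c⁻¹, by rw [map_inv₀, hc]⟩

theorem exists_field (φ : Formula K V) : ∃ T : Finset (E K D), T.card ≤ 8 * φ.leavesIn D + 1 ∧
    hL K D φ.eval ∈ Fld K D (T : Set (E K D)) := by
  obtain ⟨h0, h1⟩ := formula_good (D := D) φ
  rcases Nat.eq_zero_or_pos (φ.leavesIn D) with h | h
  · obtain ⟨c, hc⟩ := h0 h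
    refine ⟨{c}, by simp, ?_⟩
    rw [← hc]
    exact eps_mem_Fld (by simp)
  · obtain ⟨T, hT, h2, _⟩ := (h1 h).both (good_zero (K := K) (D := D) 0)
    exact ⟨T, by omega, h2⟩

end

end Pool.Agent.Helper40.CliqueF
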