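import Pool.Agent.Helper40.CliqueF.Count

/-!
# Numerics and the final bound
-/

set_option autoImplicit false

namespace Pool.Agent.Helper40.CliqueF

open MvPolynomial Pool.Agent.Helper71.Fml

theorem mul_le_pow {x : ℕ} (hx : 2 ≤ x) : ∀ l : ℕ, 1 ≤ l → l * x ≤ x ^ l := by
  intro l hl
  induction l, hl using Nat.le_induction with
  | base => simp
  | succ l hl ih =>
    have h0 : l * 2 ≤ l * x := Nat.mul_le_mul_left _ hx
    have h1 : (l + 1) * x ≤ x * (l * x) := by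
      rw [mul_comm x (l * x)]
      exact Nat.mul_le_mul_right _ (by omega)
    calc (l + 1) * x ≤ x * (l * x) := h1
      _ ≤ x * x ^ l := Nat.mul_le_mul_left _ ih
      _ = x ^ (l + 1) := by ring

theorem le_two_pow_pred {p : ℕ} (hp : 1 ≤ p) : p ≤ 2 ^ (p - 1) := by
  induction p, hp using Nat.le_induction with
  | base => simp
  | succ p hp ih =>
    have h1 : 2 ^ (p + 1 - 1) = 2 * 2 ^ (p - 1) := by
      rw [← pow_succ']
      congr 1
      omega
    have h2 : 1 ≤ 2 ^ (p - 1) := Nat.one_le_two_pow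
    omega

/-- the choice of the parameters -/
theorem params {p l : ℕ} (hp : 2 ≤ p) (hl : 1 ≤ l) : ∃ l' b : ℕ, 1 ≤ l' ∧ l' ≤ l ∧ 1 ≤ b ∧
    p ≤ b ^ l' ∧ l' * (b - 1) ≤ p - 1 ∧ l' ≤ p ∧
    ((l' * b : ℕ) : ℝ) ≤ 2 * l * (p : ℝ) ^ (1 / (l : ℝ)) := by
  have hp1 : (1 : ℝ) ≤ p := by exact_mod_cast (by omega : 1 ≤ p)
  have hlp : (1 : ℝ) ≤ (p : ℝ) ^ (1 / (l : ℝ)) := Real.one_le_rpow hp1 (by positivity)
  have hclog : Nat.clog 2 p ≤ p - 1 := Nat.clog_le_of_le_pow (le_two_pow_pred (by omega))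
  have hclog1 : 1 ≤ Nat.clog 2 p := Nat.clog_pos (by norm_num) hp
  by_cases h : l ≤ Nat.clog 2 p
  · have hex : ∃ b, p ≤ b ^ l := ⟨p, Nat.le_self_pow (by omega) p⟩
    classical
    let b := Nat.find hex
    have hb : p ≤ b ^ l := Nat.find_spec hex
    have hb2 : 2 ≤ b := by
      by_contra h1
      have h2 : b ^ l ≤ 1 ^ l := Nat.pow_le_pow_left (by omega) l
      rw [one_pow] at h2
      omega
    have hb1 : (b - 1) ^ l < p := by
      by_contra h1
      push Not at h1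
      exact Nat.find_min hex (m := b - 1) (by omega) h1
    refine ⟨l, b, hl, le_rfl, by omega, hb, ?_, by omega, ?_⟩
    · rcases Nat.lt_or_ge (b - 1) 2 with h2 | h2
      · have h3 : b - 1 = 1 := by omega
        rw [h3]
        omega
      · have h3 := mul_le_pow h2 l hl
        omega
    · have h2 : ((b - 1 : ℕ) : ℝ) ≤ (p : ℝ) ^ (1 / (l : ℝ)) := by
        rw [one_div]
        rw [Real.le_rpow_inv_iff_of_pos (by positivity) (by positivity) (by positivity)]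
        rw [Real.rpow_natCast]
        exact_mod_cast hb1.le
      have h3 : (b : ℝ) ≤ 2 * (p : ℝ) ^ (1 / (l : ℝ)) := by
        have h4 : ((b - 1 : ℕ) : ℝ) = b - 1 := by
          rw [Nat.cast_sub (by omega)]
          simp
        rw [h4] at h2
        linarith
      push_cast
      calc (l : ℝ) * b ≤ l * (2 * (p : ℝ) ^ (1 / (l : ℝ))) := by gcongr
        _ = _ := by ring
  · push Not at h
    refine ⟨Nat.clog 2 p, 2, hclog1, h.le, by norm_num, Nat.le_pow_clog (by norm_num) p, by omega,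
      by omega, ?_⟩
    have h1 : ((Nat.clog 2 p : ℕ) : ℝ) ≤ l := by exact_mod_cast h.le
    push_cast
    calc (Nat.clog 2 p : ℝ) * 2 ≤ l * 2 := by gcongr
      _ = 2 * l * 1 := by ring
      _ ≤ _ := by gcongr

theorem main {K : Type} [Field K] (n k l : ℕ) (hl : 1 ≤ l) (hk : 2 * l + 3 ≤ k)
    (hn : k + 16 ≤ n) (f : MvPolynomial (Sym2 (Fin n)) K) (hf : IsTest k f)
    (φ : Formula K (Sym2 (Fin n)))
    (hφ : φ.eval = algebraMap (MvPolynomial (Sym2 (Fin n)) K) _ f) :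
    (n : ℝ) ^ 2 * ((n - k : ℕ) : ℝ) ^ (2 - 1 / (l : ℝ)) ≤ 200000 * l * φ.size := by
  set s := n - k with hs
  set p := s / 8 with hp
  have hs16 : 16 ≤ s := by omega
  have hp2 : 2 ≤ p := by omega
  obtain ⟨l', b, hl1, hll, hb1, hpb, hlb, hlp, hreal⟩ := params hp2 hl
  have hcardb : Fintype.card (Fin p) ≤ Fintype.card (Fin l' → Fin b) := by
    rw [Fintype.card_fin, Fintype.card_fun, Fintype.card_fin, Fintype.card_fin]
    exact hpb
  obtain ⟨code⟩ := Function.Embedding.nonempty_of_card_le hcardb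
  have hbb : l' * b = l' * (b - 1) + l' := by
    conv_lhs => rw [show b = (b - 1) + 1 by omega]
    ring
  have h1 := count code code.injective (n := n) (k := k) (by omega) (by omega) f hf φ hφ
  set h := n / 2 with hh
  set N := 2 * (l' * b) with hN
  have hN1 : 1 ≤ N := by
    have : 1 ≤ l' * b := Nat.mul_pos hl1 hb1
    omega
  have h4N : 2 * N ≤ n := by omega
  have hNh : N ≤ h := by omega
  -- real inequalities
  have e1 : (n : ℝ) / 3 ≤ h := by
    have : n ≤ 3 * h := by omega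
    have h2 : (n : ℝ) ≤ 3 * h := by exact_mod_cast this
    linarith
  have e2 : (h : ℝ) / (2 * N) ≤ (h / N : ℕ) := by
    have h2 : h ≤ 2 * N * (h / N) := by
      have h3 := Nat.div_add_mod h N
      have h4 := Nat.mod_lt h (show 0 < N by omega)
      have h5 : 1 ≤ h / N := (Nat.one_le_div_iff (by omega)).2 hNh
      nlinarith
    have h3 : (h : ℝ) ≤ 2 * N * (h / N : ℕ) := by exact_mod_cast h2
    rw [div_le_iff₀ (by positivity)]
    linarith
  have e3 : (3 / 4 : ℝ) * (p : ℝ) ^ 2 ≤ ((p ^ 2 - 1 : ℕ) : ℝ) := by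
    have h2 : 1 ≤ p ^ 2 := Nat.one_le_pow _ _ (by omega)
    rw [Nat.cast_sub h2]
    push_cast
    have h3 : (2 : ℝ) ≤ p := by exact_mod_cast hp2
    nlinarith
  have e4 : (N : ℝ) ≤ 4 * l * (p : ℝ) ^ (1 / (l : ℝ)) := by
    rw [hN]
    push_cast at hreal ⊢
    linarith
  have hppos : (0 : ℝ) < p := by exact_mod_cast (by omega : 0 < p)
  have hlpos : (0 : ℝ) < l := by exact_mod_cast hl
  have hq : (0 : ℝ) < (p : ℝ) ^ (1 / (l : ℝ)) := Real.rpow_pos_of_pos hppos _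
  have hNpos : (0 : ℝ) < N := by exact_mod_cast hN1
  have e5 : (n : ℝ) / 3 * ((n / 3) / (2 * (4 * l * (p : ℝ) ^ (1 / (l : ℝ))))) *
      ((3 / 4 : ℝ) * (p : ℝ) ^ 2) ≤ 8 * φ.size := by
    have h2 : ((h * (h / N) * (p ^ 2 - 1) : ℕ) : ℝ) ≤ 8 * φ.size := by exact_mod_cast h1
    refine le_trans ?_ h2
    push_cast
    gcongr
    refine le_trans ?_ e2
    gcongr
  have e6 : (n : ℝ) ^ 2 * ((p : ℝ) ^ 2 / (p : ℝ) ^ (1 / (l : ℝ))) ≤ 768 * l * φ.size := by
    have h2 : (n : ℝ) / 3 * ((n / 3) / (2 * (4 * l * (p : ℝ) ^ (1 / (l : ℝ))))) *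
        ((3 / 4 : ℝ) * (p : ℝ) ^ 2) =
        (n : ℝ) ^ 2 * ((p : ℝ) ^ 2 / (p : ℝ) ^ (1 / (l : ℝ))) / (96 * l) := by
      field_simp
      ring
    rw [h2, div_le_iff₀ (by positivity)] at e5
    linarith
  have e7 : (p : ℝ) ^ 2 / (p : ℝ) ^ (1 / (l : ℝ)) = (p : ℝ) ^ (2 - 1 / (l : ℝ)) := by
    rw [Real.rpow_sub hppos, Real.rpow_two]
  rw [e7] at e6
  have e8 : (s : ℝ) ≤ 16 * p := by
    have : s ≤ 16 * p := by omega
    exact_mod_cast this
  have hexp : 0 ≤ 2 - 1 / (l : ℝ) := by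
    have h2 : 1 / (l : ℝ) ≤ 1 := by
      rw [div_le_one hlpos]
      exact_mod_cast hl
    linarith
  have e9 : (s : ℝ) ^ (2 - 1 / (l : ℝ)) ≤ 256 * (p : ℝ) ^ (2 - 1 / (l : ℝ)) := by
    calc (s : ℝ) ^ (2 - 1 / (l : ℝ)) ≤ (16 * p) ^ (2 - 1 / (l : ℝ)) :=
          Real.rpow_le_rpow (by positivity) e8 hexp
      _ = 16 ^ (2 - 1 / (l : ℝ)) * (p : ℝ) ^ (2 - 1 / (l : ℝ)) :=
          Real.mul_rpow (by norm_num) hppos.le
      _ ≤ 16 ^ (2 : ℝ) * (p : ℝ) ^ (2 - 1 / (l : ℝ)) := by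
          gcongr
          · norm_num
          · have : 0 ≤ 1 / (l : ℝ) := by positivity
            linarith
      _ = 256 * (p : ℝ) ^ (2 - 1 / (l : ℝ)) := by
          rw [Real.rpow_two]
          norm_num
  calc (n : ℝ) ^ 2 * (s : ℝ) ^ (2 - 1 / (l : ℝ))
      ≤ (n : ℝ) ^ 2 * (256 * (p : ℝ) ^ (2 - 1 / (l : ℝ))) := by gcongr
    _ = 256 * ((n : ℝ) ^ 2 * (p : ℝ) ^ (2 - 1 / (l : ℝ))) := by ring
    _ ≤ 256 * (768 * l * φ.size) := by gcongr
    _ = 196608 * (l * φ.size) := by ring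
    _ ≤ 200000 * (l * φ.size) := by gcongr; norm_num
    _ = _ := by ring

end Pool.Agent.Helper40.CliqueF
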